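import Pool.Agent.H16.VA.Fin
import Pool.Agent.H16.VA.Exist
import Pool.Agent.H16.VA.Assoc
import Pool.Agent.H16.VA.MO
import Pool.Agent.H39.VA.C2
import Pool.Agent.H39.VA.SI
import Pool.Agent.H19.VA.SF
import Pool.Agent.H87.VA.LE
import Pool.Agent.H87.VA.TO
import Pool.Agent.H67.VA.AF
import Pool.Agent.H67.VA.RI
import Pool.Agent.H21.VA.CO

/-!
# A simple quasi-lisse conformal vertex algebra whose associated variety is reducible

Let `A` be the etale double cover `s² = 1 + T x` of the algebra of functions on the jet space of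
the line, `A = ℂ[s, 1/s][x_0, x_2, x_3, ...]`. The vertex algebra is `A[β_0, β_1, ...]`, the
algebra of chiral differential operators (a `βγ` system) over `A`. Its Zhu algebra is
`(ℂ[x] × ℂ[x])[β]`, the functions on two disjoint symplectic planes.
-/

set_option autoImplicit false

namespace Pool.Agent.Results.MP_1f8451_al.ReducibleAssociatedVariety

open Pool.Agent.H16.VA

/-- There is a simple, finitely strongly generated vertex algebra `V` with a conformal vector of
central charge `26`, with a finitely generated and reduced Zhu algebra `R = V / C_2(V)`, such that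
`X_V = Specm R` has exactly two symplectic leaves and is reducible. -/
theorem result :
    ∃ (V : Type) (_ : AddCommGroup V) (_ : Module ℂ V) (W : VertexAlgebra V),
      W.IsSimpleVA ∧ (∃ ω, W.IsConformalVector ω 26) ∧ W.StronglyFG ∧
      ∃ (R : Type) (_ : CommRing R) (_ : Algebra ℂ R) (P : PoissonStr R) (π : V →ₗ[ℂ] R),
        W.IsC2Algebra P π ∧ Algebra.FiniteType ℂ R ∧ IsReduced R ∧ Nat.card P.Leaves = 2 ∧
        ¬ IrreducibleSpace (MaximalSpectrum R) :=
  final_of exist Pool.Agent.H67.VA.af model assoc comm_formula Pool.Agent.H39.VA.c2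
    Pool.Agent.H39.VA.si Pool.Agent.H21.VA.conf Pool.Agent.H19.VA.sf Pool.Agent.H67.VA.ri
    Pool.Agent.H87.VA.t_le Pool.Agent.H87.VA.t_to

end Pool.Agent.Results.MP_1f8451_al.ReducibleAssociatedVariety
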